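import Pool.Agent.H933.EP.Stm
import Pool.Agent.H17.LL.Whit

/-!
# From averages over discs to `a + b`

`p_lev : P_lev`. The last part of the proof is the one of `Pool.Agent.H740.LL.p_whit5` (helper740), the
double integral is handled by `Pool.Agent.H17.LL.core` (helper17).
-/

set_option autoImplicit false

open MeasureTheory Metric Set
open scoped Real ENNReal

namespace Pool.Agent.H163.EP

open Pool.Agent.H933.LL Pool.Agent.H933.EP Pool.Agent.H17.LL

/-- the pairs `(z, v)` with `v` in the disc of `z` -/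
def SR (rad : ℂ → ℝ) : Set (ℂ × ℂ) := {p : ℂ × ℂ | dist p.2 p.1 < rad p.1}

lemma meas_SR {rad : ℂ → ℝ} (h : Measurable rad) : MeasurableSet (SR rad) :=
  measurableSet_lt (continuous_snd.dist continuous_fst).measurable (h.comp measurable_fst)

/-- the kernel -/
noncomputable def krR (rad : ℂ → ℝ) (z w : ℂ) : ℝ≥0∞ :=
  (ENNReal.ofReal (rad z ^ 2))⁻¹ * (SR rad).indicator (fun _ => 1) (z, w)

lemma meas_krR {rad : ℂ → ℝ} (h : Measurable rad) : Measurable (Function.uncurry (krR rad)) := by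
  have h1 : Measurable fun p : ℂ × ℂ => (ENNReal.ofReal (rad p.1 ^ 2))⁻¹ :=
    (((h.comp measurable_fst).pow_const 2).ennreal_ofReal).inv
  have h2 : Measurable fun p : ℂ × ℂ => (SR rad).indicator (fun _ => (1 : ℝ≥0∞)) p :=
    measurable_const.indicator (meas_SR h)
  exact h1.mul h2

/-- the integral over `w` -/
lemma int_wR (rad : ℂ → ℝ) (g : ℂ → ℝ≥0∞) (z : ℂ) (hz : 0 < rad z) :
    ∫⁻ w, krR rad z w * g w = (ENNReal.ofReal (rad z ^ 2))⁻¹ * ∫⁻ w in ball z (rad z), g w := by
  have e : ∀ w, krR rad z w * g w = (ENNReal.ofReal (rad z ^ 2))⁻¹ *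
      (ball z (rad z)).indicator g w := by
    intro w
    unfold krR
    by_cases h : w ∈ ball z (rad z)
    · have h' : (z, w) ∈ SR rad := h
      rw [indicator_of_mem h', indicator_of_mem h, mul_one]
    · have h' : (z, w) ∉ SR rad := h
      rw [indicator_of_notMem h', indicator_of_notMem h, mul_zero, zero_mul]
  simp only [e]
  have h2 : ENNReal.ofReal (rad z ^ 2) ≠ 0 := by
    rw [Ne, ENNReal.ofReal_eq_zero, not_le]
    positivity
  rw [lintegral_const_mul' _ _ (ENNReal.inv_ne_top.2 h2), lintegral_indicator measurableSet_ball]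

/-- the elementary inequality `u ^ 2 ≤ 2 exp u` -/
lemma sq_le {x s : ℝ} (hx : 0 ≤ x) (hs : 0 ≤ s) :
    (max 0 (Real.posLog x - s)) ^ 2 ≤ 2 * Real.exp (-s) * x := by
  rcases le_or_gt (Real.posLog x) s with h | h
  · rw [max_eq_left (by linarith)]
    have h1 : 0 ≤ 2 * Real.exp (-s) * x := by
      have := Real.exp_pos (-s)
      positivity
    calc (0 : ℝ) ^ 2 = 0 := by norm_num
      _ ≤ _ := h1
  · rw [max_eq_right (by linarith)]
    have h1 : Real.posLog x = max 0 (Real.log x) := rfl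
    have h2 : Real.posLog x = Real.log x := by
      rcases max_cases 0 (Real.log x) with h3 | h3
      · rw [h1, h3.1] at h
        linarith
      · rw [h1, h3.1]
    have hx0 : 0 < x := by
      rcases hx.eq_or_lt with h3 | h3
      · rw [h2, ← h3, Real.log_zero] at h
        linarith
      · exact h3
    have h3 : Real.exp (-s) * x = Real.exp (Real.posLog x - s) := by
      rw [h2, sub_eq_add_neg, Real.exp_add, Real.exp_log hx0, mul_comm]
    have h4 := Real.quadratic_le_exp_of_nonneg (show 0 ≤ Real.posLog x - s by linarith)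
    rw [mul_assoc, h3]
    have h5 : 0 ≤ Real.posLog x - s := by linarith
    linarith

lemma posLog_comp {ρ₁ ρ₂ C : ℝ} (h1 : 0 < ρ₁) (h2 : 0 < ρ₂) (hC : 1 ≤ C) (h : ρ₂ ≤ C * ρ₁) :
    Real.posLog ρ₁⁻¹ ≤ Real.log C + Real.posLog ρ₂⁻¹ := by
  have hl : 0 ≤ Real.log C := Real.log_nonneg hC
  have hp : 0 ≤ Real.posLog ρ₂⁻¹ := Real.posLog_nonneg
  have hp2 : Real.log ρ₂⁻¹ ≤ Real.posLog ρ₂⁻¹ := le_max_right _ _
  have h3 : Real.log ρ₂ ≤ Real.log C + Real.log ρ₁ := by
    rw [← Real.log_mul (by positivity) h1.ne']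
    exact Real.log_le_log h2 h
  refine max_le (by linarith) ?_
  rw [Real.log_inv]
  rw [Real.log_inv] at hp2
  linarith

lemma exp_posLog {ρ : ℝ} (h : 0 < ρ) : Real.exp (-(2 * Real.posLog ρ⁻¹)) ≤ ρ ^ 2 := by
  have h1 : Real.log ρ⁻¹ ≤ Real.posLog ρ⁻¹ := le_max_right _ _
  rw [Real.log_inv] at h1
  have h2 : ρ ^ 2 = Real.exp (2 * Real.log ρ) := by
    rw [mul_comm, Real.exp_mul, Real.exp_log h]
    norm_num
  rw [h2]
  exact Real.exp_le_exp.2 (by linarith)

/-- the lower bound for the integral over `z` -/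
lemma int_zR {E : Set ℂ} {l : ℂ} {r : ℝ} {g G rad : ℂ → ℝ} {C₂ : ℝ}
    (R : Radii E l r g G rad C₂) (hr : 0 < r) (v : ℂ) (hv : v ∈ ball l (r / 2)) (hvE : v ∉ E) :
    ENNReal.ofReal ((C₂ ^ 4)⁻¹) ≤ ∫⁻ z in ball l r, krR rad z v := by
  have hC1 := R.one
  have hC0 : 0 < C₂ := by linarith
  have hvr : v ∈ ball l r := ball_subset_ball (by linarith) hv
  obtain ⟨hp, -, hp8⟩ := R.pos v hvr hvE
  have hvl : dist v l < r / 2 := hv
  have hle : rad v / C₂ ≤ rad v := div_le_self hp.le hC1
  have hz : ∀ z ∈ ball v (rad v / C₂), z ∈ ball l r ∧ (z, v) ∈ SR rad ∧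
      rad z ^ 2 ≤ (C₂ * rad v) ^ 2 := by
    intro z hz
    have h1 : dist z v < rad v / C₂ := hz
    have h2 : ‖v - z‖ < rad v := by
      rw [← dist_eq_norm, dist_comm]
      linarith
    obtain ⟨c1, c2, -⟩ := R.comp v hvr hvE z h2
    have h3 : rad v / C₂ ≤ rad z := by
      rw [div_le_iff₀ hC0]
      linarith
    have hz0 : 0 < rad z := lt_of_lt_of_le (by positivity) h3
    refine ⟨?_, ?_, ?_⟩
    · have h5 : dist z l ≤ dist z v + dist v l := dist_triangle _ _ _
      rw [mem_ball]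
      linarith
    · change dist v z < rad z
      rw [dist_comm]
      linarith
    · exact pow_le_pow_left₀ hz0.le c1 2
  have hd9 : 0 < (C₂ * rad v) ^ 2 := by positivity
  have ha : ENNReal.ofReal ((C₂ * rad v) ^ 2) ≠ 0 := by
    rw [Ne, ENNReal.ofReal_eq_zero, not_le]
    exact hd9
  calc ENNReal.ofReal ((C₂ ^ 4)⁻¹)
      ≤ (ENNReal.ofReal ((C₂ * rad v) ^ 2))⁻¹ * volume (ball v (rad v / C₂)) := by
        refine le_inv_mul ha ENNReal.ofReal_ne_top ?_
        rw [vol v (by positivity), ← ENNReal.ofReal_mul (by positivity)]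
        refine ENNReal.ofReal_le_ofReal ?_
        have h1 := Real.pi_gt_three
        have h2 : 0 ≤ (rad v / C₂) ^ 2 := by positivity
        have h3 : (C₂ ^ 4)⁻¹ * (C₂ * rad v) ^ 2 = (rad v / C₂) ^ 2 := by
          field_simp
        rw [h3]
        nlinarith
    _ = ∫⁻ _ in ball v (rad v / C₂), (ENNReal.ofReal ((C₂ * rad v) ^ 2))⁻¹ := by
        rw [setLIntegral_const]
    _ ≤ ∫⁻ z in ball v (rad v / C₂), krR rad z v := by
        refine setLIntegral_mono' measurableSet_ball fun z hz' => ?_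
        obtain ⟨-, h2, h3⟩ := hz z hz'
        unfold krR
        rw [indicator_of_mem h2, mul_one]
        exact ENNReal.inv_le_inv.2 (ENNReal.ofReal_le_ofReal h3)
    _ ≤ ∫⁻ z in ball l r, krR rad z v :=
        lintegral_mono_set fun z hz' => (hz z hz').1

/-- the function `a₀` -/
noncomputable def a0 (x G rad : ℂ → ℝ) (C' C₂ : ℝ) (v : ℂ) : ℝ :=
  max 0 (Real.posLog (x v) - 2 * |C'| * (1 + G v) - 2 * Real.posLog (rad v)⁻¹ - 2 * Real.log C₂)

lemma a0_nonneg (x G rad : ℂ → ℝ) (C' C₂ : ℝ) (v : ℂ) : 0 ≤ a0 x G rad C' C₂ v := le_max_left _ _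

lemma meas_a0 {x G rad : ℂ → ℝ} (hx : Measurable x) (hG : Measurable G) (hr : Measurable rad)
    (C' C₂ : ℝ) : Measurable (a0 x G rad C' C₂) := by
  have h1 : Measurable fun v => Real.posLog (x v) := Real.continuous_posLog.measurable.comp hx
  have h2 : Measurable fun v => Real.posLog (rad v)⁻¹ :=
    Real.continuous_posLog.measurable.comp hr.inv
  exact measurable_const.max (((h1.sub ((measurable_const.add hG).const_mul _)).sub
    (h2.const_mul _)).sub_const _)

/-- the pointwise bound -/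
lemma pt_lev {E : Set ℂ} {l : ℂ} {r : ℝ} {x g G rad : ℂ → ℝ} {C' C₂ : ℝ}
    (R : Radii E l r g G rad C₂) (hx : Measurable x) (hx0 : ∀ v, 0 ≤ x v) (hg0 : ∀ z, 0 ≤ g z)
    (z : ℂ) (hz : z ∈ ball l r) (hzE : z ∉ E)
    (h : ∫⁻ v in ball z (infDist z E / 4), ENNReal.ofReal (x v)
      ≤ ENNReal.ofReal (Real.exp (C' * (1 + g z)))) :
    (ENNReal.ofReal (rad z ^ 2))⁻¹ *
      ∫⁻ v in ball z (rad z), ENNReal.ofReal (a0 x G rad C' C₂ v ^ 2) ≤ ENNReal.ofReal 2 := by
  have hC1 := R.one
  obtain ⟨hp, hp4, -⟩ := R.pos z hz hzE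
  have ha : ENNReal.ofReal (rad z ^ 2) ≠ 0 := by
    rw [Ne, ENNReal.ofReal_eq_zero, not_le]
    positivity
  refine inv_mul_le ha ENNReal.ofReal_ne_top ?_
  obtain ⟨s, hs⟩ : ∃ s : ℝ, s = 2 * |C'| * (1 + g z) + 2 * Real.posLog (rad z)⁻¹ := ⟨_, rfl⟩
  have hpz : 0 ≤ Real.posLog (rad z)⁻¹ := Real.posLog_nonneg
  have hCg : 0 ≤ |C'| * (1 + g z) := mul_nonneg (abs_nonneg _) (by linarith [hg0 z])
  have hs0 : 0 ≤ s := by rw [hs]; linarith
  have hpt : ∀ v ∈ ball z (rad z), ENNReal.ofReal (a0 x G rad C' C₂ v ^ 2) ≤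
      ENNReal.ofReal (2 * Real.exp (-s)) * ENNReal.ofReal (x v) := by
    intro v hv
    have h1 : ‖z - v‖ < rad z := by
      rw [← dist_eq_norm, dist_comm]
      exact hv
    obtain ⟨c1, c2, c3⟩ := R.comp z hz hzE v h1
    have hrv : 0 < rad v := by
      by_contra hcon
      push Not at hcon
      have : C₂ * rad v ≤ 0 := mul_nonpos_of_nonneg_of_nonpos (by linarith) hcon
      linarith
    have h2 := posLog_comp hp hrv hC1 c1
    have h3 : |C'| * (1 + g z) ≤ |C'| * (1 + G v) :=
      mul_le_mul_of_nonneg_left (by linarith) (abs_nonneg _)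
    have h4 : a0 x G rad C' C₂ v ≤ max 0 (Real.posLog (x v) - s) := by
      unfold a0
      apply max_le_max le_rfl
      rw [hs]
      linarith
    rw [← ENNReal.ofReal_mul (by positivity)]
    apply ENNReal.ofReal_le_ofReal
    exact (pow_le_pow_left₀ (a0_nonneg _ _ _ _ _ _) h4 2).trans (sq_le (hx0 v) hs0)
  calc ∫⁻ v in ball z (rad z), ENNReal.ofReal (a0 x G rad C' C₂ v ^ 2)
      ≤ ∫⁻ v in ball z (rad z), ENNReal.ofReal (2 * Real.exp (-s)) * ENNReal.ofReal (x v) :=
        setLIntegral_mono' measurableSet_ball hpt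
    _ = ENNReal.ofReal (2 * Real.exp (-s)) * ∫⁻ v in ball z (rad z), ENNReal.ofReal (x v) :=
        lintegral_const_mul _ hx.ennreal_ofReal
    _ ≤ ENNReal.ofReal (2 * Real.exp (-s)) * ENNReal.ofReal (Real.exp (C' * (1 + g z))) := by
        gcongr
        exact (lintegral_mono_set (ball_subset_ball hp4)).trans h
    _ ≤ ENNReal.ofReal (rad z ^ 2) * ENNReal.ofReal 2 := by
        rw [← ENNReal.ofReal_mul (by positivity), ← ENNReal.ofReal_mul (by positivity)]
        apply ENNReal.ofReal_le_ofReal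
        have h1 := exp_posLog hp
        have h2 : Real.exp (-s) * Real.exp (C' * (1 + g z)) ≤
            Real.exp (-(2 * Real.posLog (rad z)⁻¹)) := by
          rw [← Real.exp_add]
          apply Real.exp_le_exp.2
          have h3 : C' * (1 + g z) ≤ |C'| * (1 + g z) :=
            mul_le_mul_of_nonneg_right (le_abs_self _) (by linarith [hg0 z])
          rw [hs]
          linarith
        have h3 := h2.trans h1
        calc 2 * Real.exp (-s) * Real.exp (C' * (1 + g z)) =
            2 * (Real.exp (-s) * Real.exp (C' * (1 + g z))) := by ring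
          _ ≤ 2 * rad z ^ 2 := by linarith
          _ = _ := by ring

theorem p_lev : P_lev := by
  intro x g G rad E S C' C₂ l r hr hx hx0 hE hne hE0 hg0 R hmain
  have hsub : ball l (r / 2) ⊆ ball l r := ball_subset_ball (by linarith)
  have hEae : ∀ᵐ z ∂(volume : Measure ℂ), z ∉ E ∩ ball l r :=
    measure_eq_zero_iff_ae_notMem.1 hE0
  have hC1 := R.one
  have hC0 : 0 < C₂ := by linarith
  have hlC : 0 ≤ Real.log C₂ := Real.log_nonneg hC1
  constructor
  · obtain ⟨f, hf⟩ : ∃ f : ℂ → ℝ, f = a0 x G rad C' C₂ := ⟨_, rfl⟩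
    have hfm : Measurable f := by rw [hf]; exact meas_a0 hx R.measG R.meas C' C₂
    have hf0 : ∀ v, 0 ≤ f v := by intro v; rw [hf]; exact a0_nonneg _ _ _ _ _ _
    have hI1 : IntegrableOn (fun v => f v ^ 2) (ball l (r / 2)) := by
      refine ⟨(hfm.pow_const 2).aestronglyMeasurable, ?_⟩
      rw [hasFiniteIntegral_iff_ofReal (Filter.Eventually.of_forall fun v => sq_nonneg _)]
      have h2 := core (krR rad) (meas_krR R.meas) (fun v => ENNReal.ofReal (f v ^ 2))
        ((hfm.pow_const 2).ennreal_ofReal) (ball l (r / 2)) (ball l r)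
        measurableSet_ball measurableSet_ball (ENNReal.ofReal ((C₂ ^ 4)⁻¹))
        (hEae.mono fun w hw hwr => int_zR R hr w hwr (fun hwE => hw ⟨hwE, hsub hwr⟩))
        (fun _ => ENNReal.ofReal 2)
        (hEae.mono fun z hz hzr => by
          have hzE : z ∉ E := fun hzE => hz ⟨hzE, hzr⟩
          rw [int_wR rad _ z (R.pos z hzr hzE).1, hf]
          exact pt_lev R hx hx0 hg0 z hzr hzE (hmain z hzr hzE).2)
      have h3 : ∫⁻ _ in ball l r, ENNReal.ofReal 2 < ⊤ := by
        rw [setLIntegral_const]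
        exact ENNReal.mul_lt_top ENNReal.ofReal_lt_top measure_ball_lt_top
      have hc0 : ENNReal.ofReal ((C₂ ^ 4)⁻¹) ≠ 0 := by
        rw [Ne, ENNReal.ofReal_eq_zero, not_le]
        positivity
      have h8 := h2.trans_lt h3
      exact (ENNReal.mul_lt_top_iff.1 h8).elim (fun h => h.2) (fun h => by
        rcases h with h | h
        · exact absurd h hc0
        · rw [h]; exact ENNReal.zero_lt_top)
    have hpm : Measurable fun v => Real.posLog (rad v)⁻¹ :=
      Real.continuous_posLog.measurable.comp R.meas.inv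
    have hI2 : IntegrableOn (fun v => (Real.posLog (rad v)⁻¹) ^ (2 : ℝ)) (ball l (r / 2)) :=
      R.int.mono_set hsub
    have hI3 : IntegrableOn (fun _ : ℂ => (2 * Real.log C₂) ^ 2) (ball l (r / 2)) :=
      integrableOn_const (by rw [Complex.volume_ball]; finiteness)
    refine ⟨fun v => f v + 2 * Real.posLog (rad v)⁻¹ + 2 * Real.log C₂, ?_, ?_, ?_⟩
    · intro v
      have h1 : 0 ≤ Real.posLog (rad v)⁻¹ := Real.posLog_nonneg
      have := hf0 v
      show 0 ≤ f v + 2 * Real.posLog (rad v)⁻¹ + 2 * Real.log C₂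
      linarith
    · have hI4 : IntegrableOn (fun v => 3 * ((f v ^ 2 + 4 * (Real.posLog (rad v)⁻¹) ^ (2 : ℝ))
          + (2 * Real.log C₂) ^ 2)) (ball l (r / 2)) :=
        Integrable.const_mul ((hI1.add (hI2.const_mul 4)).add hI3) 3
      refine Integrable.mono' hI4 ?_ (Filter.Eventually.of_forall fun v => ?_)
      · exact ((((hfm.add (hpm.const_mul 2)).add_const _)).pow_const (2 : ℝ)).aestronglyMeasurable
      · have h1 : 0 ≤ Real.posLog (rad v)⁻¹ := Real.posLog_nonneg
        have h2 := hf0 v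
        rw [Real.rpow_two, Real.rpow_two, Real.norm_of_nonneg (sq_nonneg _)]
        nlinarith [sq_nonneg (f v - 2 * Real.posLog (rad v)⁻¹),
          sq_nonneg (f v - 2 * Real.log C₂),
          sq_nonneg (2 * Real.posLog (rad v)⁻¹ - 2 * Real.log C₂)]
    · refine Filter.Eventually.of_forall fun v => ?_
      have h1 : Real.posLog (x v) - 2 * |C'| * (1 + G v) - 2 * Real.posLog (rad v)⁻¹
          - 2 * Real.log C₂ ≤ f v := by
        rw [hf]
        exact le_max_right _ _
      show Real.posLog (x v) ≤ f v + 2 * Real.posLog (rad v)⁻¹ + 2 * Real.log C₂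
        + 2 * |C'| * (1 + G v)
      linarith
  · rw [ae_restrict_iff' measurableSet_ball, ae_iff]
    have h1 : volume ({w | w ∉ S} ∩ ball l (r / 2) ∩ Eᶜ) = 0 := by
      refine measure_null_of_locally_null _ fun z hz => ?_
      obtain ⟨⟨hzG, hzr⟩, hzE⟩ := hz
      have hd : 0 < infDist z E := (hE.notMem_iff_infDist_pos hne).1 hzE
      have h2 := (hmain z (hsub hzr) hzE).1
      rw [ae_restrict_iff' measurableSet_ball, ae_iff] at h2
      refine ⟨ball z (infDist z E / 4) ∩ {w | w ∉ S}, ?_, ?_⟩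
      · refine Filter.inter_mem (mem_nhdsWithin_of_mem_nhds (ball_mem_nhds _ (by positivity))) ?_
        exact Filter.mem_of_superset self_mem_nhdsWithin
          (inter_subset_left.trans inter_subset_left)
      · refine measure_mono_null ?_ h2
        intro w hw
        simp only [Set.mem_ofPred_eq, Classical.not_imp]
        exact ⟨hw.1, hw.2⟩
    refine measure_mono_null ?_ (measure_union_null hE0 h1)
    intro w hw
    simp only [Set.mem_ofPred_eq, Classical.not_imp] at hw
    by_cases hwE : w ∈ E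
    · exact Or.inl ⟨hwE, hsub hw.1⟩
    · exact Or.inr ⟨⟨hw.2, hw.1⟩, hwE⟩

end Pool.Agent.H163.EP
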