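import Pool.Agent.H933.EP.Stm
import Pool.Agent.H21.LL.Nor5

/-!
# The rate of normal operators plus Macaev class operators

`p_rateM : P_rateM`. Variant of `Pool.Agent.H21.LL.p_nor5` (helper21).
-/

set_option autoImplicit false

open MeasureTheory Metric Filter Topology
open scoped Real InnerProductSpace

namespace Pool.Agent.H163.EP

open Pool.Agent.H933.LL Pool.Agent.H933.EP Pool.Agent.H548.LL Pool.Agent.H21.LL

/-! ### Integrability -/

/-- scaling and powers -/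
lemma int_pow {L : ℝ → ℝ} (hL : ∀ δ δ' : ℝ, 0 < δ → δ ≤ δ' → L δ' ≤ L δ) {α : ℝ}
    (hα : 1 / 2 < α)
    (hint : IntegrableOn (fun δ : ℝ => δ ^ (2 * α - 1 - 1) * L δ) (Set.Ioc 0 1)) {k : ℝ}
    (hk : 0 < k) :
    IntegrableOn (fun t : ℝ => L (k * t ^ (1 / α)) * t ^ (1 - 1 / α)) (Set.Ioc 0 1) := by
  have hα0 : 0 < α := by linarith
  obtain ⟨G, hG⟩ : ∃ G : ℝ → ℝ, G = fun δ : ℝ => δ ^ (2 * α - 1 - 1) * L δ := ⟨_, rfl⟩
  rw [← hG] at hint
  -- the interval `(0, k]`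
  have h1 : IntegrableOn G (Set.Icc 1 (max 1 k)) := by
    have ha : AntitoneOn L (Set.Icc 1 (max 1 k)) := by
      intro a ha b _ hab
      exact hL a b (by linarith [ha.1]) hab
    have hc : ContinuousOn (fun δ : ℝ => δ ^ (2 * α - 1 - 1)) (Set.Icc 1 (max 1 k)) := by
      intro a ha
      exact (Real.continuousAt_rpow_const a _ (Or.inl (by linarith [ha.1]))).continuousWithinAt
    rw [hG]
    exact (ha.integrableOn_isCompact isCompact_Icc).continuousOn_mul hc isCompact_Icc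
  have h2 : IntegrableOn G (Set.Ioc 0 k) := by
    refine (hint.union h1).mono_set ?_
    intro a ha
    rcases le_or_gt a 1 with h | h
    · exact Or.inl ⟨ha.1, h⟩
    · exact Or.inr ⟨h.le, ha.2.trans (le_max_right _ _)⟩
  have h3 : IntervalIntegrable G volume 0 k :=
    (intervalIntegrable_iff_integrableOn_Ioc_of_le hk.le).2 h2
  have h4 := h3.comp_mul_left (c := k)
  rw [zero_div, div_self hk.ne', intervalIntegrable_iff_integrableOn_Ioc_of_le zero_le_one] at h4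
  -- powers
  obtain ⟨F, hF⟩ : ∃ F : ℝ → ℝ, F = (Set.Ioc (0 : ℝ) 1).indicator fun u => G (k * u) := ⟨_, rfl⟩
  have h5 : IntegrableOn F (Set.Ioi 0) := by
    rw [hF]
    exact ((integrable_indicator_iff measurableSet_Ioc).2 h4).integrableOn
  have hp : (1 / α) ≠ 0 := by positivity
  have h6 := (integrableOn_Ioi_comp_rpow_iff' F hp).2 h5
  have h7 : IntegrableOn (fun t : ℝ => (k ^ (2 * α - 1 - 1))⁻¹ *
      (t ^ (1 / α - 1) • F (t ^ (1 / α)))) (Set.Ioc 0 1) :=
    (h6.mono_set Set.Ioc_subset_Ioi_self).const_mul _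
  refine h7.congr_fun ?_ measurableSet_Ioc
  intro t ht
  have ht0 : 0 < t := ht.1
  have htp : 0 < t ^ (1 / α) := Real.rpow_pos_of_pos ht0 _
  have htp1 : t ^ (1 / α) ≤ 1 := Real.rpow_le_one ht0.le ht.2 (by positivity)
  have hkk : k ^ (2 * α - 1 - 1) ≠ 0 := (Real.rpow_pos_of_pos hk _).ne'
  show (k ^ (2 * α - 1 - 1))⁻¹ * (t ^ (1 / α - 1) • F (t ^ (1 / α))) =
    L (k * t ^ (1 / α)) * t ^ (1 - 1 / α)
  rw [hF, Set.indicator_of_mem (show t ^ (1 / α) ∈ Set.Ioc (0 : ℝ) 1 from ⟨htp, htp1⟩), hG,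
    smul_eq_mul]
  show (k ^ (2 * α - 1 - 1))⁻¹ * (t ^ (1 / α - 1) * ((k * t ^ (1 / α)) ^ (2 * α - 1 - 1) *
    L (k * t ^ (1 / α)))) = L (k * t ^ (1 / α)) * t ^ (1 - 1 / α)
  rw [Real.mul_rpow hk.le htp.le, ← Real.rpow_mul ht0.le]
  have h8 : t ^ (1 / α - 1) * t ^ (1 / α * (2 * α - 1 - 1)) = t ^ (1 - 1 / α) := by
    rw [← Real.rpow_add ht0]
    congr 1
    field_simp
    ring
  rw [← h8]
  field_simp

/-- the logarithm -/
lemma int_log {α : ℝ} (hα : 1 / 2 < α) (hα1 : α ≤ 1) {c' : ℝ} (hc' : 0 < c') :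
    IntegrableOn (fun t : ℝ => Real.posLog (c' * t ^ (1 / α))⁻¹ * t ^ (1 - 1 / α))
      (Set.Ioc 0 1) := by
  have hα0 : 0 < α := by linarith
  have hp1 : 1 ≤ 1 / α := by rw [le_div_iff₀ hα0]; linarith
  have hp2 : 1 / α < 2 := by rw [div_lt_iff₀ hα0]; linarith
  generalize 1 / α = p at *
  obtain ⟨ε, hε⟩ : ∃ ε : ℝ, ε = (2 - p) / 2 := ⟨_, rfl⟩
  have hε0 : 0 < ε := by rw [hε]; linarith
  have i1 : IntegrableOn (fun t : ℝ => t ^ (1 - p)) (Set.Ioc 0 1) :=
    (intervalIntegrable_iff_integrableOn_Ioc_of_le zero_le_one).1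
      (intervalIntegral.intervalIntegrable_rpow' (by linarith))
  have i2 : IntegrableOn (fun t : ℝ => t ^ (-ε + (1 - p))) (Set.Ioc 0 1) :=
    (intervalIntegrable_iff_integrableOn_Ioc_of_le zero_le_one).1
      (intervalIntegral.intervalIntegrable_rpow' (by rw [hε]; linarith))
  have i3 : IntegrableOn (fun t : ℝ => |Real.log c'| * t ^ (1 - p) + p / ε * t ^ (-ε + (1 - p)))
      (Set.Ioc 0 1) := (i1.const_mul _).add (i2.const_mul _)
  have hm : Measurable fun t : ℝ => Real.posLog (c' * t ^ p)⁻¹ * t ^ (1 - p) := by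
    have h1 : Measurable fun t : ℝ => (c' * t ^ p)⁻¹ := by fun_prop
    have h2 : Measurable fun t : ℝ => Real.posLog (c' * t ^ p)⁻¹ :=
      Real.continuous_posLog.measurable.comp h1
    exact h2.mul (by fun_prop)
  refine Integrable.mono' i3 hm.aestronglyMeasurable ?_
  rw [ae_restrict_iff' measurableSet_Ioc]
  refine Filter.Eventually.of_forall fun t ht => ?_
  have ht0 : 0 < t := ht.1
  have hl : Real.log t ≤ 0 := Real.log_nonpos ht0.le ht.2
  have htp : 0 < t ^ p := Real.rpow_pos_of_pos ht0 _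
  have ht1 : 0 ≤ t ^ (1 - p) := Real.rpow_nonneg ht0.le _
  have hte : 0 ≤ t ^ (-ε) := Real.rpow_nonneg ht0.le _
  have hb : Real.posLog (c' * t ^ p)⁻¹ ≤ |Real.log c'| + p * (t ^ (-ε) / ε) := by
    have h1 := neg_log_le ht0 hε0
    have h2 : Real.log (c' * t ^ p)⁻¹ = -Real.log c' + p * (-Real.log t) := by
      rw [Real.log_inv, Real.log_mul hc'.ne' htp.ne', Real.log_rpow ht0]
      ring
    have h3 : -Real.log c' ≤ |Real.log c'| := neg_le_abs _
    have h4 : p * (-Real.log t) ≤ p * (t ^ (-ε) / ε) :=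
      mul_le_mul_of_nonneg_left h1 (by linarith)
    refine max_le ?_ ?_
    · have : 0 ≤ p * (t ^ (-ε) / ε) := by positivity
      have := abs_nonneg (Real.log c')
      linarith
    · rw [h2]
      linarith
  rw [Real.norm_of_nonneg (mul_nonneg Real.posLog_nonneg ht1)]
  calc Real.posLog (c' * t ^ p)⁻¹ * t ^ (1 - p) ≤
      (|Real.log c'| + p * (t ^ (-ε) / ε)) * t ^ (1 - p) := mul_le_mul_of_nonneg_right hb ht1
    _ = _ := by
      rw [Real.rpow_add ht0]
      ring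

/-! ### The counting function -/

/-- the logarithm of the counting function -/
noncomputable def Lc {ι : Type} (s : ι → ℝ) (δ : ℝ) : ℝ :=
  Real.log (1 + ({i | δ < s i}.ncard : ℝ))

lemma Lc_nonneg {ι : Type} (s : ι → ℝ) (δ : ℝ) : 0 ≤ Lc s δ := by
  unfold Lc
  apply Real.log_nonneg
  have : (0 : ℝ) ≤ ({i | δ < s i}.ncard : ℝ) := Nat.cast_nonneg _
  linarith

lemma Lc_anti {ι : Type} {s : ι → ℝ} (hfin : ∀ δ : ℝ, 0 < δ → {i | δ < s i}.Finite) (δ δ' : ℝ)
    (hδ : 0 < δ) (h : δ ≤ δ') : Lc s δ' ≤ Lc s δ := by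
  unfold Lc
  apply Real.log_le_log
  · have : (0 : ℝ) ≤ ({i | δ' < s i}.ncard : ℝ) := Nat.cast_nonneg _
    linarith
  · have h1 : {i | δ' < s i}.ncard ≤ {i | δ < s i}.ncard := by
      apply Set.ncard_le_ncard _ (hfin δ hδ)
      intro i hi
      exact lt_of_le_of_lt h hi
    have h2 : ({i | δ' < s i}.ncard : ℝ) ≤ ({i | δ < s i}.ncard : ℝ) := by exact_mod_cast h1
    linarith

/-- the rate -/
noncomputable def wM {ι : Type} (s : ι → ℝ) (κ d : ℝ) : ℝ :=
  if 0 < d then Lc s (κ * d) + Real.posLog d⁻¹ else 0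

lemma wM_nonneg {ι : Type} (s : ι → ℝ) (κ d : ℝ) : 0 ≤ wM s κ d := by
  unfold wM
  split_ifs
  · exact add_nonneg (Lc_nonneg _ _) Real.posLog_nonneg
  · exact le_rfl

lemma wM_anti {ι : Type} {s : ι → ℝ} (hfin : ∀ δ : ℝ, 0 < δ → {i | δ < s i}.Finite) {κ : ℝ}
    (hκ : 0 < κ) (d d' : ℝ) (hd : 0 < d) (h : d ≤ d') : wM s κ d' ≤ wM s κ d := by
  unfold wM
  rw [if_pos hd, if_pos (lt_of_lt_of_le hd h)]
  apply add_le_add
  · exact Lc_anti hfin _ _ (by positivity) (mul_le_mul_of_nonneg_left h hκ.le)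
  · apply Real.posLog_le_posLog
    · exact (inv_pos.2 (lt_of_lt_of_le hd h)).le
    · exact inv_anti₀ hd h

lemma wM_int {ι : Type} {s : ι → ℝ} (hfin : ∀ δ : ℝ, 0 < δ → {i | δ < s i}.Finite) {κ : ℝ}
    (hκ : 0 < κ) {α : ℝ} (hα : 1 / 2 < α) (hα1 : α ≤ 1)
    (hint : IntegrableOn (fun δ : ℝ => δ ^ (2 * α - 1 - 1) * Real.log
      (1 + ({i | δ < s i}.ncard : ℝ))) (Set.Ioc 0 1)) {c' : ℝ} (hc' : 0 < c') :
    IntegrableOn (fun t : ℝ => wM s κ (c' * t ^ (1 / α)) * t ^ (1 - 1 / α)) (Set.Ioc 0 1) := by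
  have h1 := int_pow (L := Lc s) (Lc_anti hfin) hα hint (k := κ * c') (by positivity)
  have h2 := int_log hα hα1 hc'
  refine (h1.add h2).congr_fun ?_ measurableSet_Ioc
  intro t ht
  have h3 : 0 < c' * t ^ (1 / α) := mul_pos hc' (Real.rpow_pos_of_pos ht.1 _)
  show Lc s (κ * c' * t ^ (1 / α)) * t ^ (1 - 1 / α) +
    Real.posLog (c' * t ^ (1 / α))⁻¹ * t ^ (1 - 1 / α) =
    wM s κ (c' * t ^ (1 / α)) * t ^ (1 - 1 / α)
  unfold wM
  rw [if_pos h3, mul_assoc κ]
  ring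

section

variable {H : Type} [NormedAddCommGroup H] [InnerProductSpace ℂ H] [CompleteSpace H]

/-- part 2 -/
lemma compact_of_macaev {K : H →L[ℂ] H} {β : ℝ} (hK : MacaevClass K β) :
    IsCompactOperator K := by
  classical
  obtain ⟨ι, e, f, s, he, hf, hs, hfinite, -, hKx⟩ := hK
  have hcl := isClosed_setOfPred_isCompactOperator (σ₁₂ := RingHom.id ℂ) (M₁ := H) (M₂ := H)
  have hmem : K ∈ closure {f : H →L[ℂ] H | IsCompactOperator f} := by
    rw [Metric.mem_closure_iff]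
    intro ε hε
    have hδ : 0 < ε / 2 := by linarith
    have hfin := hfinite _ hδ
    refine ⟨∑ i ∈ hfin.toFinset, ((s i : ℂ) • innerSL ℂ (e i)).smulRight (f i), ?_, ?_⟩
    · have h1 : (∑ i ∈ hfin.toFinset, ((s i : ℂ) • innerSL ℂ (e i)).smulRight (f i)) ∈
          compactOperator (RingHom.id ℂ) H H := by
        refine Submodule.sum_mem _ fun i _ => ?_
        have h2 : IsCompactOperator ((s i : ℂ) • innerSL ℂ (e i) : H →L[ℂ] ℂ) :=
          isCompactOperator_of_locallyCompactSpace_dom _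
        exact h2.clm_comp (ContinuousLinearMap.toSpanSingleton ℂ (f i))
      exact h1
    · rw [dist_eq_norm]
      have h3 := trunc_le he hf hs hKx hfin.toFinset hδ.le (fun i hi => by
        rw [Set.Finite.mem_toFinset] at hi
        exact not_lt.mp hi)
      linarith
  rw [hcl.closure_eq] at hmem
  exact hmem

/-- part 1 -/
lemma rateW_of_macaev {N K : H →L[ℂ] H} {E : Set ℂ} {α : ℝ} (hN : IsStarNormal N)
    (hspec : spectrum ℂ N ⊆ E) (hα : 1 / 2 < α) (hα1 : α ≤ 1) (hK : MacaevClass K (2 * α - 1))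
    {c : ℝ} (hc : 0 < c) :
    ∃ (w : ℝ → ℝ) (C : ℝ), (∀ d, 0 ≤ w d) ∧ (∀ d d' : ℝ, 0 < d → d ≤ d' → w d' ≤ w d) ∧
      (∀ c' : ℝ, 0 < c' →
        IntegrableOn (fun t : ℝ => w (c' * t ^ (1 / α)) * t ^ (1 - 1 / α)) (Set.Ioc 0 1)) ∧
      RateW N ((c : ℂ) • K) E w C := by
  classical
  obtain ⟨ι, e, f, s, he, hf, hs, hfinite, hint, hKx⟩ := hK
  -- the singular value decomposition of `c K`
  have hcs : ∀ i, 0 ≤ c * s i := fun i => mul_nonneg hc.le (hs i)
  have hcK : ∀ x, HasSum (fun i => (((c * s i : ℝ) : ℂ) * ⟪e i, x⟫_ℂ) • f i)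
      (((c : ℂ) • K) x) := by
    intro x
    have h1 := (hKx x).const_smul (c : ℂ)
    have h2 : (fun i => (c : ℂ) • (((s i : ℂ) * ⟪e i, x⟫_ℂ) • f i)) =
        fun i => (((c * s i : ℝ) : ℂ) * ⟪e i, x⟫_ℂ) • f i := by
      funext i
      rw [smul_smul, Complex.ofReal_mul, mul_assoc]
    rw [h2] at h1
    exact h1
  have hsK := sv_le he hf hcs hcK
  obtain ⟨M, hM⟩ : ∃ M, M = ‖(c : ℂ) • K‖ + 1 + 1 / c := ⟨_, rfl⟩
  have hKn := norm_nonneg ((c : ℂ) • K)
  have h1c : 0 < 1 / c := by positivity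
  have hM1 : 1 ≤ M := by rw [hM]; linarith
  obtain ⟨B, hB⟩ : ∃ B, B = 1 + M := ⟨_, rfl⟩
  have hB0 : 0 < B := by rw [hB]; linarith
  have hB1 : 1 ≤ B := by rw [hB]; linarith
  obtain ⟨κ, hκ⟩ : ∃ κ, κ = 1 / (2 * c * B) := ⟨_, rfl⟩
  have hκ0 : 0 < κ := by rw [hκ]; positivity
  have hlogB : 0 ≤ Real.log B := Real.log_nonneg hB1
  refine ⟨wM s κ, 1 + Real.log B, wM_nonneg s κ, wM_anti hfinite hκ0,
    fun c' hc' => wM_int hfinite hκ0 hα hα1 hint hc', ⟨?_, ?_⟩⟩
  · intro z hz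
    by_contra h
    exact hz (hspec h)
  · intro d hd hd1
    have hw0 := wM_nonneg s κ d
    have hwd : wM s κ d = Lc s (κ * d) + Real.posLog d⁻¹ := by
      unfold wM
      rw [if_pos hd]
    have hL0 := Lc_nonneg s (κ * d)
    have hp0 : 0 ≤ Real.posLog d⁻¹ := Real.posLog_nonneg
    have hp1 : Real.log d⁻¹ ≤ Real.posLog d⁻¹ := le_max_right _ _
    rw [Real.log_inv] at hp1
    obtain ⟨ρ, hρ⟩ : ∃ ρ, ρ = 1 / d + M := ⟨_, rfl⟩
    have h1d : 1 ≤ 1 / d := by
      rw [le_div_iff₀ hd]; linarith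
    have hρ1 : 1 ≤ ρ := by rw [hρ]; linarith
    have hρ0 : 0 < ρ := by linarith
    have hρB : ρ ≤ B * d⁻¹ := by
      rw [hρ, hB, one_div]
      rw [one_div] at h1d
      nlinarith
    -- the threshold
    obtain ⟨δ, hδ⟩ : ∃ δ, δ = 1 / (2 * c * ρ) := ⟨_, rfl⟩
    have hδ0 : 0 < δ := by rw [hδ]; positivity
    have hδκ : κ * d ≤ δ := by
      rw [hδ, hκ, div_mul_eq_mul_div, one_mul, div_le_div_iff₀ (by positivity) (by positivity)]
      have h1 : ρ * d ≤ B := by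
        calc ρ * d ≤ B * d⁻¹ * d := mul_le_mul_of_nonneg_right hρB hd.le
          _ = B := by field_simp
      have h2 := mul_le_mul_of_nonneg_left h1 (show 0 ≤ 2 * c by positivity)
      linarith
    have hfin := hfinite δ hδ0
    obtain ⟨I, hI⟩ : ∃ I : Finset ι, I = hfin.toFinset := ⟨_, rfl⟩
    have hcard : Real.log ((I.card : ℝ) + 1) ≤ Lc s (κ * d) := by
      have h1 := Lc_anti hfinite (κ * d) δ (by positivity) hδκ
      refine le_trans (le_of_eq ?_) h1
      unfold Lc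
      rw [Set.ncard_eq_toFinset_card _ hfin, ← hI, add_comm]
    have hmem : ∀ i, i ∈ I ↔ δ < s i := by
      intro i
      rw [hI, Set.Finite.mem_toFinset]
      rfl
    -- the enumeration
    obtain ⟨g⟩ : Nonempty (Fin I.card ≃ I) := ⟨I.equivFin.symm⟩
    refine ⟨I.card, fun k => ((c * s (g k) : ℝ) : ℂ) • innerSL ℂ (e (g k)), fun k => f (g k), ρ,
      hρ1, ?_, ?_, ?_, ?_, ?_⟩
    · -- the rank
      have h1 : 0 ≤ Real.log B * (1 + wM s κ d) := mul_nonneg hlogB (by linarith)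
      have h2 : (1 + Real.log B) * (1 + wM s κ d) =
        1 + wM s κ d + Real.log B * (1 + wM s κ d) := by ring
      rw [h2]
      rw [hwd] at h1 ⊢
      linarith
    · -- the resolvent
      have hlρ0 : 0 ≤ Real.log ρ := Real.log_nonneg hρ1
      have h1 : Real.log (1 + Real.log ρ) ≤ Real.log ρ := by
        have h2 := Real.log_le_sub_one_of_pos (show 0 < 1 + Real.log ρ by linarith)
        linarith
      have h2 : Real.log ρ ≤ Real.log B + (- Real.log d) := by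
        have h3 := Real.log_le_log hρ0 hρB
        rw [Real.log_mul hB0.ne' (inv_pos.mpr hd).ne', Real.log_inv] at h3
        exact h3
      have h4 : 0 ≤ Real.log B * wM s κ d := mul_nonneg hlogB hw0
      have h5 : (1 + Real.log B) * (1 + wM s κ d) =
        1 + wM s κ d + Real.log B + Real.log B * wM s κ d := by ring
      rw [h5]
      rw [hwd] at h4 ⊢
      linarith
    · intro k
      constructor
      · rw [norm_smul, innerSL_apply_norm, he.norm_eq_one, mul_one, Complex.norm_real,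
          Real.norm_eq_abs, abs_of_nonneg (hcs _)]
        have := hsK (g k)
        have h1d0 : 0 < 1 / d := by positivity
        rw [hρ, hM]
        linarith
      · rw [hf.norm_eq_one]
        exact hρ1
    · intro z hz
      have h1 : ‖resolvent N z‖ ≤ 1 / d := by
        refine res_le hN hd fun w hw => ?_
        have h2 := infDist_le_dist_of_mem (x := z) (hspec hw)
        rw [dist_eq_norm] at h2
        linarith
      rw [hρ]
      linarith
    · have h0 : ∑ k, (((c * s (g k) : ℝ) : ℂ) • innerSL ℂ (e (g k))).smulRight (f (g k)) =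
          ∑ i ∈ I, (((c * s i : ℝ) : ℂ) • innerSL ℂ (e i)).smulRight (f i) := by
        rw [← Finset.sum_coe_sort I
          (fun i => (((c * s i : ℝ) : ℂ) • innerSL ℂ (e i)).smulRight (f i))]
        exact Fintype.sum_equiv g _ _ fun k => rfl
      have h1 : ‖(c : ℂ) • K - ∑ i ∈ I, (((c * s i : ℝ) : ℂ) • innerSL ℂ (e i)).smulRight (f i)‖
          ≤ 1 / (2 * ρ) := by
        refine trunc_le he hf hcs hcK I (by positivity) fun i hi => ?_
        rw [hmem, not_lt] at hi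
        have h2 : c * s i ≤ c * δ := mul_le_mul_of_nonneg_left hi hc.le
        have h3 : c * δ = 1 / (2 * ρ) := by
          rw [hδ]
          field_simp
        linarith
      rw [h0]
      calc ‖(c : ℂ) • K - ∑ i ∈ I, (((c * s i : ℝ) : ℂ) • innerSL ℂ (e i)).smulRight (f i)‖ * ρ ≤
            1 / (2 * ρ) * ρ := mul_le_mul_of_nonneg_right h1 hρ0.le
        _ = 1 / 2 := by field_simp

end

theorem p_rateM : P_rateM := by
  refine ⟨?_, ?_⟩
  · intro H _ _ _ N K E α hN _ _ hspec hα hα1 hK c hc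
    exact rateW_of_macaev hN hspec hα hα1 hK hc
  · intro H _ _ _ K β _ hK
    exact compact_of_macaev hK

end Pool.Agent.H163.EP
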